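import Mathlib

/-!
# Link diagrams with `t` twist regions and their Kauffman bracket
-/

namespace MP_fc1011_gt

open LaurentPolynomial

/-- A link diagram with `t` twist regions.  Region `r` is a horizontal row of `|n r|` crossings
of one handedness (the sign of `n r`); consecutive crossings of the row bound a bigon.  Each
region has four ends `(r, right, upper)` (`right = false` is the left side, `upper = false` is
the lower end of this side), and the `4 t` ends are joined in pairs by `arc`. -/
structure TwistDiagram (t : ℕ) where
  /-- number of half twists of the regions -/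
  n : Fin t → ℤ
  /-- the arcs which join the ends of the regions -/
  arc : Fin t × (Bool × Bool) → Fin t × (Bool × Bool)
  arc_arc : ∀ x, arc (arc x) = x
  arc_ne : ∀ x, arc x ≠ x

namespace TwistDiagram

variable {t : ℕ} (D : TwistDiagram t)

/-- A state chooses one of the two smoothings of every crossing: `true` is the horizontal
smoothing (upper left end joined to the upper right end, lower left to lower right), `false` is
the vertical one (the two left ends joined, the two right ends joined). -/
abbrev State := ∀ r : Fin t, Fin (D.n r).natAbs → Bool

/-- The pieces of strands of region `r`: to the left of the first crossing, between consecutive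
crossings, to the right of the last crossing; `true` is the upper one, `false` the lower one. -/
abbrev Strand := (r : Fin t) × (Fin ((D.n r).natAbs + 1) × Bool)

/-- The piece of strand at an end of a region. -/
def endStrand (x : Fin t × (Bool × Bool)) : D.Strand :=
  ⟨x.1, (if x.2.1 = true then Fin.last _ else 0), x.2.2⟩

/-- Pieces of strands which are joined, by an outer arc or in a smoothed crossing. -/
inductive Joined (s : D.State) : D.Strand → D.Strand → Prop
  | outer (x : Fin t × (Bool × Bool)) : Joined s (D.endStrand x) (D.endStrand (D.arc x))
  | horizontal (r : Fin t) (k : Fin (D.n r).natAbs) (b : Bool) : s r k = true →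
      Joined s ⟨r, k.castSucc, b⟩ ⟨r, k.succ, b⟩
  | left (r : Fin t) (k : Fin (D.n r).natAbs) : s r k = false →
      Joined s ⟨r, k.castSucc, true⟩ ⟨r, k.castSucc, false⟩
  | right (r : Fin t) (k : Fin (D.n r).natAbs) : s r k = false →
      Joined s ⟨r, k.succ, true⟩ ⟨r, k.succ, false⟩

/-- The number of loops of a state. -/
noncomputable def loops (s : D.State) : ℕ := Nat.card (Quot (D.Joined s))

end TwistDiagram

/-- The value of a loop. -/
noncomputable def delta : ℤ[T;T⁻¹] := -T 2 - T (-2)

namespace TwistDiagram

variable {t : ℕ} (D : TwistDiagram t)

/-- The product of the factors `A` and `A⁻¹` of the smoothings of a state. -/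
noncomputable def weight (s : D.State) : ℤ[T;T⁻¹] :=
  ∏ r, ∏ k, if s r k = true then T (D.n r).sign else T (-(D.n r).sign)

/-- The Kauffman bracket, a Laurent polynomial in `A`, normalised by the value `1` of the
diagram without crossings of the unknot. -/
noncomputable def bracket : ℤ[T;T⁻¹] :=
  ∑ s : D.State, D.weight s * delta ^ (D.loops s - 1)

/-- The substitution `t = A⁻⁴`. -/
noncomputable def toA : ℤ[T;T⁻¹] →+* ℤ[T;T⁻¹] :=
  AddMonoidAlgebra.mapDomainRingHom ℤ (AddMonoidHom.mulLeft (-4 : ℤ))

/-- `V` is the Jones polynomial of `D`: `V(A⁻⁴) = (-A³)^(-w) ⟨D⟩` where the integer `w` is the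
writhe of the diagram. -/
def IsJones (V : ℤ[T;T⁻¹]) : Prop :=
  ∃ w : ℤ, toA V = (C (Int.negOnePow w : ℤ) * T (-3 * w)) * D.bracket

end TwistDiagram

/-- The value at `-1`. -/
noncomputable def atNegOne (V : ℤ[T;T⁻¹]) : ℤ :=
  V.coeff.sum fun i c => c * (Int.negOnePow i : ℤ)

/-- The span (largest minus smallest exponent). -/
noncomputable def span (V : ℤ[T;T⁻¹]) : ℕ :=
  (V.coeff.support ×ˢ V.coeff.support).sup fun p => (p.1 - p.2).toNat

end MP_fc1011_gt
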