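import Pool.Agent.Lib.MP_fc1011_gt.Basic

/-!
# The `ℓ¹` norm of Laurent polynomials and division by `(1 + t)^k`
-/

namespace MP_fc1011_gt

open LaurentPolynomial

/-- sum of the absolute values of the coefficients -/
noncomputable def l1 (f : ℤ[T;T⁻¹]) : ℕ := f.coeff.sum fun _ c => c.natAbs

theorem l1_eq_sum (f : ℤ[T;T⁻¹]) (s : Finset ℤ) (hs : f.coeff.support ⊆ s) :
    l1 f = ∑ i ∈ s, (f.coeff i).natAbs := by
  unfold l1
  rw [Finsupp.sum_of_support_subset _ hs]
  intro i _; rfl

theorem l1_zero : l1 0 = 0 := by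
  simp [l1]

theorem l1_add_le (f g : ℤ[T;T⁻¹]) : l1 (f + g) ≤ l1 f + l1 g := by
  classical
  rw [l1_eq_sum (f + g) (f.coeff.support ∪ g.coeff.support)
      (by rw [AddMonoidAlgebra.coeff_add]; exact Finsupp.support_add),
    l1_eq_sum f _ Finset.subset_union_left, l1_eq_sum g _ Finset.subset_union_right,
    ← Finset.sum_add_distrib]
  refine Finset.sum_le_sum (fun i _ => ?_)
  rw [AddMonoidAlgebra.coeff_add, Finsupp.add_apply]
  exact Int.natAbs_add_le _ _

theorem l1_sum_le {ι : Type*} (s : Finset ι) (f : ι → ℤ[T;T⁻¹]) :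
    l1 (∑ i ∈ s, f i) ≤ ∑ i ∈ s, l1 (f i) := by
  classical
  induction s using Finset.induction_on with
  | empty => simp [l1_zero]
  | insert a s ha ih =>
    rw [Finset.sum_insert ha, Finset.sum_insert ha]
    exact (l1_add_le _ _).trans (Nat.add_le_add_left ih _)

theorem l1_single (n c : ℤ) : l1 (AddMonoidAlgebra.single n c : ℤ[T;T⁻¹]) = c.natAbs := by
  unfold l1
  rw [AddMonoidAlgebra.coeff_single, Finsupp.sum_single_index]
  rfl

theorem l1_mul_le (f g : ℤ[T;T⁻¹]) : l1 (f * g) ≤ l1 f * l1 g := by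
  rw [AddMonoidAlgebra.mul_def]
  unfold Finsupp.sum
  refine (l1_sum_le _ _).trans ?_
  have h : ∀ i ∈ f.coeff.support,
      l1 (∑ j ∈ g.coeff.support, AddMonoidAlgebra.single (i + j) (f.coeff i * g.coeff j))
        ≤ (f.coeff i).natAbs * l1 g := by
    intro i _
    refine (l1_sum_le _ _).trans ?_
    rw [l1_eq_sum g _ (Finset.Subset.refl _), Finset.mul_sum]
    refine Finset.sum_le_sum (fun j _ => ?_)
    rw [l1_single, Int.natAbs_mul]
  refine (Finset.sum_le_sum h).trans ?_
  rw [← Finset.sum_mul, l1_eq_sum f _ (Finset.Subset.refl _)]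

theorem l1_T (n : ℤ) : l1 (T n) = 1 := l1_single n 1

theorem l1_one : l1 1 = 1 := l1_single 0 1

theorem l1_neg (f : ℤ[T;T⁻¹]) : l1 (-f) = l1 f := by
  rw [l1_eq_sum (-f) f.coeff.support, l1_eq_sum f _ (Finset.Subset.refl _)]
  · refine Finset.sum_congr rfl (fun i _ => ?_)
    rw [AddMonoidAlgebra.coeff_neg, Finsupp.neg_apply, Int.natAbs_neg]
  · rw [AddMonoidAlgebra.coeff_neg, Finsupp.support_neg]

theorem l1_sub_le (f g : ℤ[T;T⁻¹]) : l1 (f - g) ≤ l1 f + l1 g := by
  rw [sub_eq_add_neg]
  exact (l1_add_le _ _).trans (by rw [l1_neg])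

theorem l1_pow_le (f : ℤ[T;T⁻¹]) (n : ℕ) : l1 (f ^ n) ≤ l1 f ^ n := by
  induction n with
  | zero => rw [pow_zero, pow_zero, l1_one]
  | succ n ih =>
    rw [pow_succ, pow_succ]
    exact (l1_mul_le _ _).trans (Nat.mul_le_mul_right _ ih)

theorem l1_prod_le {ι : Type*} (s : Finset ι) (f : ι → ℤ[T;T⁻¹]) :
    l1 (∏ i ∈ s, f i) ≤ ∏ i ∈ s, l1 (f i) := by
  classical
  induction s using Finset.induction_on with
  | empty => simp [l1_one]
  | insert a s ha ih =>
    rw [Finset.prod_insert ha, Finset.prod_insert ha]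
    exact (l1_mul_le _ _).trans (Nat.mul_le_mul_left _ ih)

theorem l1_C_mul_T (a n : ℤ) : l1 (C a * T n) = a.natAbs := by
  rw [← single_eq_C_mul_T, l1_single]

theorem l1_delta : l1 delta ≤ 2 := by
  unfold delta
  refine (l1_sub_le _ _).trans ?_
  rw [l1_neg, l1_T, l1_T]

theorem l1_toA (f : ℤ[T;T⁻¹]) : l1 (TwistDiagram.toA f) = l1 f := by
  have hinj : Function.Injective (fun i : ℤ => -4 * i) := by
    intro a b h
    simp only at h
    omega
  have h : (TwistDiagram.toA f).coeff = Finsupp.mapDomain (fun i : ℤ => -4 * i) f.coeff := rfl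
  unfold l1
  rw [h, Finsupp.sum_mapDomain_index_inj hinj]

theorem coeff_one_add_T_mul (W : ℤ[T;T⁻¹]) (j : ℤ) :
    ((1 + T 1) * W).coeff j = W.coeff j + W.coeff (j - 1) := by
  rw [add_mul, one_mul, AddMonoidAlgebra.coeff_add, Finsupp.add_apply]
  congr 1
  have h : (T 1 * W : ℤ[T;T⁻¹]) = AddMonoidAlgebra.single 1 1 * W := rfl
  rw [h]
  have := AddMonoidAlgebra.coeff_single_mul_eq_mul_coeff (x := W) (m := (1 : ℤ)) (m₁ := j)
    (r := (1 : ℤ)) (j - 1) (fun a _ => by constructor <;> intro h <;> omega)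
  rw [this, one_mul]

theorem coeff_bound (k : ℕ) : ∀ (W : ℤ[T;T⁻¹]) (a : ℤ), (∀ i < a, W.coeff i = 0) →
    ∀ j : ℕ, (W.coeff (a + j)).natAbs ≤ l1 ((1 + T 1) ^ (k + 1) * W) * (k + j).choose k := by
  induction k with
  | zero =>
    intro W a hW j
    rw [zero_add, pow_one, zero_add, Nat.choose_zero_right, mul_one]
    have h1 : ∀ j : ℕ, (W.coeff (a + j)).natAbs ≤
        ∑ i ∈ Finset.range (j + 1), (((1 + T 1) * W).coeff (a + i)).natAbs := by
      intro j
      induction j with
      | zero =>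
        rw [Finset.sum_range_one, coeff_one_add_T_mul]
        rw [hW (a + ((0 : ℕ) : ℤ) - 1) (by push_cast; omega), add_zero]
      | succ j ih =>
        rw [Finset.sum_range_succ, coeff_one_add_T_mul]
        have e : a + ((j + 1 : ℕ) : ℤ) - 1 = a + j := by push_cast; ring
        rw [e]
        omega
    refine (h1 j).trans ?_
    have hinj : Function.Injective fun i : ℕ => a + (i : ℤ) := fun x y h => by
      simp only at h; omega
    rw [l1_eq_sum ((1 + T 1) * W) (((1 + T 1) * W).coeff.support ∪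
      (Finset.range (j + 1)).map ⟨fun i : ℕ => a + (i : ℤ), hinj⟩) Finset.subset_union_left]
    refine le_trans (le_of_eq ?_) (Finset.sum_le_sum_of_subset
      (f := fun i => (((1 + T 1) * W).coeff i).natAbs)
      (Finset.subset_union_right (s₂ := (Finset.range (j + 1)).map
        ⟨fun i : ℕ => a + (i : ℤ), hinj⟩)))
    rw [Finset.sum_map]
    rfl
  | succ k ih =>
    intro W a hW j
    have e : (1 + T 1 : ℤ[T;T⁻¹]) ^ (k + 1 + 1) * W = (1 + T 1) ^ (k + 1) * ((1 + T 1) * W) := by
      rw [pow_succ]; ring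
    rw [e]
    set U := (1 + T 1) * W with hU
    have hU0 : ∀ i < a, U.coeff i = 0 := by
      intro i hi
      rw [hU, coeff_one_add_T_mul, hW i hi, hW (i - 1) (by omega), add_zero]
    set L := l1 ((1 + T 1) ^ (k + 1) * U) with hL
    induction j with
    | zero =>
      have h := ih U a hU0 0
      rw [hU, coeff_one_add_T_mul, hW (a + ((0 : ℕ) : ℤ) - 1) (by push_cast; omega), add_zero,
        ← hU, ← hL] at h
      simpa using h
    | succ j ihj =>
      have h := ih U a hU0 (j + 1)
      have e2 : W.coeff (a + ((j + 1 : ℕ) : ℤ)) = U.coeff (a + ((j + 1 : ℕ) : ℤ)) -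
          W.coeff (a + j) := by
        rw [hU, coeff_one_add_T_mul]
        have e : a + ((j + 1 : ℕ) : ℤ) - 1 = a + j := by push_cast; ring
        rw [e]; ring
      rw [e2]
      have e3 : (k + 1 + (j + 1)).choose (k + 1) =
          (k + (j + 1)).choose k + (k + 1 + j).choose (k + 1) := by
        have : k + 1 + (j + 1) = (k + (j + 1)) + 1 := by ring
        rw [this, Nat.choose_succ_succ]
        congr 2
        ring
      rw [e3, mul_add]
      have h4 := Int.natAbs_sub_le (U.coeff (a + ((j + 1 : ℕ) : ℤ))) (W.coeff (a + j))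
      rw [← hL] at h
      omega

theorem sum_choose_range (k s : ℕ) :
    ∑ j ∈ Finset.range (s + 1), (k + j).choose k = (k + 1 + s).choose (k + 1) := by
  induction s with
  | zero => simp
  | succ s ih =>
    rw [Finset.sum_range_succ, ih]
    have : k + 1 + (s + 1) = (k + (s + 1)) + 1 := by ring
    rw [this, Nat.choose_succ_succ, add_comm]
    congr 2
    ring

theorem exists_window (V : ℤ[T;T⁻¹]) : ∃ a : ℤ, (∀ i < a, V.coeff i = 0) ∧
    ∀ i, a + span V < i → V.coeff i = 0 := by
  by_cases hV : V.coeff.support.Nonempty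
  · refine ⟨V.coeff.support.min' hV, ?_, ?_⟩
    · intro i hi
      by_contra h
      have := Finset.min'_le _ i (Finsupp.mem_support_iff.mpr h)
      omega
    · intro i hi
      by_contra h
      have hi' : i ∈ V.coeff.support := Finsupp.mem_support_iff.mpr h
      have h1 : (i - V.coeff.support.min' hV).toNat ≤ span V := by
        unfold span
        exact Finset.le_sup (f := fun p : ℤ × ℤ => (p.1 - p.2).toNat)
          (Finset.mem_product.mpr ⟨hi', Finset.min'_mem _ hV⟩ :
            (i, V.coeff.support.min' hV) ∈ V.coeff.support ×ˢ V.coeff.support)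
      have h2 := Int.self_le_toNat (i - V.coeff.support.min' hV)
      omega
  · rw [Finset.not_nonempty_iff_eq_empty, Finsupp.support_eq_empty] at hV
    exact ⟨0, fun i _ => by rw [hV]; rfl, fun i _ => by rw [hV]; rfl⟩

theorem atNegOne_le (V : ℤ[T;T⁻¹]) (k : ℕ) :
    (atNegOne V).natAbs ≤ l1 ((1 + T 1) ^ (k + 1) * V) * (k + 1 + span V).choose (k + 1) := by
  obtain ⟨a, ha, hb⟩ := exists_window V
  have hinj : Function.Injective fun i : ℕ => a + (i : ℤ) := fun x y h => by
    simp only at h; omega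
  set s : Finset ℤ := (Finset.range (span V + 1)).map ⟨fun i : ℕ => a + (i : ℤ), hinj⟩ with hs
  have hsub : V.coeff.support ⊆ s := by
    intro i hi
    rw [Finsupp.mem_support_iff] at hi
    have h1 : a ≤ i := by
      by_contra h
      exact hi (ha i (by omega))
    have h2 : i ≤ a + span V := by
      by_contra h
      exact hi (hb i (by omega))
    rw [hs, Finset.mem_map]
    refine ⟨(i - a).toNat, ?_, ?_⟩
    · rw [Finset.mem_range]; omega
    · simp only [Function.Embedding.coeFn_mk]
      omega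
  have h1 : atNegOne V = ∑ i ∈ s, V.coeff i * (Int.negOnePow i : ℤ) := by
    unfold atNegOne
    rw [Finsupp.sum_of_support_subset _ hsub]
    intro i _; simp
  rw [h1]
  have h2 : (∑ i ∈ s, V.coeff i * (Int.negOnePow i : ℤ)).natAbs ≤
      ∑ i ∈ s, (V.coeff i).natAbs := by
    refine (Int.natAbs_sum_le _ _).trans (Finset.sum_le_sum fun i _ => ?_)
    rw [Int.natAbs_mul]
    have : ((Int.negOnePow i : ℤˣ) : ℤ).natAbs = 1 := Int.units_natAbs _
    rw [this, mul_one]
  refine h2.trans ?_
  rw [hs, Finset.sum_map, ← sum_choose_range, Finset.mul_sum]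
  refine Finset.sum_le_sum fun j _ => ?_
  exact coeff_bound k V a ha j

end MP_fc1011_gt
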