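import Pool.Agent.Lib.MP_fc1011_gt.Loops
import Pool.Agent.Lib.MP_fc1011_gt.L1

/-!
# The bracket of a diagram with `t` twist regions, multiplied by `δ^t`
-/

namespace MP_fc1011_gt

open LaurentPolynomial

/-- contribution of a region -/
noncomputable def wgt (ε : ℤ) {m : ℕ} (σ : Fin m → Bool) : ℤ[T;T⁻¹] :=
  ∏ k, if σ k = true then T ε else T (-ε)

theorem wgt_mul_pow (ε : ℤ) {m : ℕ} (σ : Fin m → Bool) :
    wgt ε σ * delta ^ vcount σ = ∏ k, (if σ k = true then T ε else T (-ε) * delta) := by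
  unfold wgt vcount
  rw [Finset.card_filter, ← Finset.prod_pow_eq_pow_sum, ← Finset.prod_mul_distrib]
  refine Finset.prod_congr rfl (fun k _ => ?_)
  cases h : σ k <;> simp

theorem sum_wgt (ε : ℤ) (m : ℕ) :
    ∑ σ : Fin m → Bool, wgt ε σ * delta ^ vcount σ = (T ε + T (-ε) * delta) ^ m := by
  simp_rw [wgt_mul_pow]
  have h := Finset.prod_univ_sum (fun _ : Fin m => (Finset.univ : Finset Bool))
    (fun _ b => (if b = true then (T ε : ℤ[T;T⁻¹]) else T (-ε) * delta))
  rw [Fintype.piFinset_univ] at h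
  rw [← h]
  simp

theorem wgt_of_vcount (ε : ℤ) {m : ℕ} (σ : Fin m → Bool) :
    vcount σ = 0 ↔ σ = fun _ => true := by
  unfold vcount
  rw [Finset.card_eq_zero, Finset.filter_eq_empty_iff]
  constructor
  · intro h
    funext k
    simpa using h (Finset.mem_univ k)
  · intro h k _
    simp [h]

theorem wgt_true (ε : ℤ) (m : ℕ) : wgt ε (fun _ : Fin m => true) = T ε ^ m := by
  simp [wgt]

/-- sum over the smoothings of a region of a given type -/
noncomputable def regionSum (ε : ℤ) (m : ℕ) (b : Bool) : ℤ[T;T⁻¹] :=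
  ∑ σ : Fin m → Bool, if decide (vcount σ ≠ 0) = b then
    wgt ε σ * delta ^ (vcount σ - 1 + 1) else 0

theorem regionSum_false (ε : ℤ) (m : ℕ) : regionSum ε m false = T ε ^ m * delta := by
  unfold regionSum
  rw [Finset.sum_eq_single (fun _ => true)]
  · have h : vcount (fun _ : Fin m => true) = 0 := (wgt_of_vcount ε _).mpr rfl
    simp [h, wgt_true]
  · intro σ _ hσ
    have h : vcount σ ≠ 0 := fun h => hσ ((wgt_of_vcount ε _).mp h)
    simp [h]
  · intro h; exact absurd (Finset.mem_univ _) h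

theorem regionSum_true (ε : ℤ) (m : ℕ) :
    regionSum ε m true = (T ε + T (-ε) * delta) ^ m - T ε ^ m := by
  rw [← sum_wgt, eq_sub_iff_add_eq]
  unfold regionSum
  have h1 : (T ε : ℤ[T;T⁻¹]) ^ m = ∑ σ : Fin m → Bool, if σ = (fun _ => true) then
      T ε ^ m else 0 := by simp
  rw [h1, ← Finset.sum_add_distrib]
  refine Finset.sum_congr rfl (fun σ _ => ?_)
  by_cases h : vcount σ = 0
  · have h' := (wgt_of_vcount ε σ).mp h
    have h0 : vcount (fun _ : Fin m => true) = 0 := (wgt_of_vcount ε _).mpr rfl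
    subst h'
    simp [h0, wgt_true]
  · have h' : σ ≠ fun _ => true := fun h' => h ((wgt_of_vcount ε σ).mpr h')
    have h2 : vcount σ - 1 + 1 = vcount σ := by omega
    simp [h, h', h2]

theorem l1_regionSum_le (ε : ℤ) (hε : ε = 1 ∨ ε = -1 ∨ ε = 0) (m : ℕ) (hm : ε = 0 → m = 0)
    (b : Bool) : l1 (regionSum ε m b) ≤ 2 := by
  have hT : l1 ((T ε : ℤ[T;T⁻¹]) ^ m) ≤ 1 := by
    refine (l1_pow_le _ _).trans ?_
    rw [l1_T, one_pow]
  cases b
  · rw [regionSum_false]
    calc l1 ((T ε : ℤ[T;T⁻¹]) ^ m * delta) ≤ l1 ((T ε : ℤ[T;T⁻¹]) ^ m) * l1 delta := l1_mul_le _ _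
      _ ≤ 1 * 2 := Nat.mul_le_mul hT l1_delta
      _ = 2 := by norm_num
  · rw [regionSum_true]
    refine (l1_sub_le _ _).trans ?_
    have h2 : l1 ((T ε + T (-ε) * delta : ℤ[T;T⁻¹]) ^ m) ≤ 1 := by
      rcases hε with h | h | h
      · have : (T ε + T (-ε) * delta : ℤ[T;T⁻¹]) = -T (-3) := by
          rw [h]
          unfold delta
          rw [mul_sub, mul_neg, ← T_add, ← T_add]
          norm_num
          abel
        rw [this]
        refine (l1_pow_le _ _).trans ?_
        rw [l1_neg, l1_T, one_pow]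
      · have : (T ε + T (-ε) * delta : ℤ[T;T⁻¹]) = -T 3 := by
          rw [h]
          unfold delta
          rw [mul_sub, mul_neg, ← T_add, ← T_add]
          norm_num
        rw [this]
        refine (l1_pow_le _ _).trans ?_
        rw [l1_neg, l1_T, one_pow]
      · rw [hm h, pow_zero, l1_one]
    omega

namespace TwistDiagram

variable {t : ℕ} (D : TwistDiagram t)

theorem weight_eq (s : D.State) : D.weight s = ∏ r, wgt (D.n r).sign (s r) := rfl

theorem delta_pow_mul_bracket (ht : 0 < t) :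
    delta ^ t * D.bracket = ∑ S : Fin t → Bool, delta ^ (D.baseLoops S - 1) *
      ∏ r, regionSum (D.n r).sign (D.n r).natAbs (S r) := by
  have h1 : ∀ s : D.State, delta ^ t * (D.weight s * delta ^ (D.loops s - 1)) =
      delta ^ (D.baseLoops (D.vert s) - 1) *
        ∏ r, (wgt (D.n r).sign (s r) * delta ^ (vcount (s r) - 1 + 1)) := by
    intro s
    have hl := D.loops_eq ht s
    have hp := D.baseLoops_pos ht (D.vert s)
    have e : t + (D.loops s - 1) =
        (D.baseLoops (D.vert s) - 1) + ∑ r, (vcount (s r) - 1 + 1) := by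
      rw [Finset.sum_add_distrib]
      simp only [Finset.sum_const, Finset.card_univ, Fintype.card_fin, smul_eq_mul, mul_one]
      omega
    rw [Finset.prod_mul_distrib, Finset.prod_pow_eq_pow_sum, weight_eq]
    calc delta ^ t * ((∏ r, wgt (D.n r).sign (s r)) * delta ^ (D.loops s - 1))
        = (∏ r, wgt (D.n r).sign (s r)) * delta ^ (t + (D.loops s - 1)) := by
          rw [pow_add]; ring
      _ = _ := by rw [e, pow_add]; ring
  unfold bracket
  rw [Finset.mul_sum, Finset.sum_congr rfl (fun s _ => h1 s)]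
  have h2 : ∀ s : D.State, delta ^ (D.baseLoops (D.vert s) - 1) *
        ∏ r, (wgt (D.n r).sign (s r) * delta ^ (vcount (s r) - 1 + 1)) =
      ∑ S : Fin t → Bool, delta ^ (D.baseLoops S - 1) * ∏ r,
        (if decide (vcount (s r) ≠ 0) = S r then
          wgt (D.n r).sign (s r) * delta ^ (vcount (s r) - 1 + 1) else 0) := by
    intro s
    rw [Finset.sum_eq_single (D.vert s)]
    · congr 1
      refine Finset.prod_congr rfl (fun r _ => ?_)
      have hd : decide (vcount (s r) ≠ 0) = D.vert s r := by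
        unfold vert
        congr
      rw [if_pos hd]
    · intro S _ hS
      rw [Fintype.prod_ite_zero, if_neg, mul_zero]
      intro h
      refine hS (funext fun r => ?_)
      have hd : decide (vcount (s r) ≠ 0) = D.vert s r := by
        unfold vert
        congr
      rw [← h r, hd]
    · intro h; exact absurd (Finset.mem_univ _) h
  rw [Finset.sum_congr rfl (fun s _ => h2 s), Finset.sum_comm]
  refine Finset.sum_congr rfl (fun S _ => ?_)
  rw [← Finset.mul_sum]
  congr 1
  unfold regionSum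
  rw [Finset.prod_univ_sum, Fintype.piFinset_univ]

theorem l1_delta_pow_mul_bracket (ht : 0 < t) : l1 (delta ^ t * D.bracket) ≤ 16 ^ t := by
  rw [D.delta_pow_mul_bracket ht]
  refine (l1_sum_le _ _).trans ?_
  have h : ∀ S ∈ (Finset.univ : Finset (Fin t → Bool)),
      l1 (delta ^ (D.baseLoops S - 1) *
        ∏ r, regionSum (D.n r).sign (D.n r).natAbs (S r)) ≤ 8 ^ t := by
    intro S _
    refine (l1_mul_le _ _).trans ?_
    have h1 : l1 (delta ^ (D.baseLoops S - 1)) ≤ 4 ^ t := by
      refine (l1_pow_le _ _).trans ((Nat.pow_le_pow_left l1_delta _).trans ?_)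
      have : (4 : ℕ) ^ t = 2 ^ (2 * t) := by rw [pow_mul]; norm_num
      rw [this]
      exact Nat.pow_le_pow_right (by norm_num) (by have := D.baseLoops_le S; omega)
    have h2 : l1 (∏ r, regionSum (D.n r).sign (D.n r).natAbs (S r)) ≤ 2 ^ t := by
      refine (l1_prod_le _ _).trans ?_
      calc ∏ r, l1 (regionSum (D.n r).sign (D.n r).natAbs (S r)) ≤ ∏ _r : Fin t, 2 := by
            refine Finset.prod_le_prod' (fun r _ => ?_)
            refine l1_regionSum_le _ ?_ _ ?_ _
            · rcases lt_trichotomy (D.n r) 0 with h | h | h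
              · right; left; exact Int.sign_eq_neg_one_of_neg h
              · right; right; rw [h]; rfl
              · left; exact Int.sign_eq_one_of_pos h
            · intro h
              rw [Int.sign_eq_zero_iff_zero] at h
              rw [h]; rfl
        _ = 2 ^ t := by simp
    calc _ ≤ 4 ^ t * 2 ^ t := Nat.mul_le_mul h1 h2
      _ = 8 ^ t := by rw [← mul_pow]; norm_num
  refine (Finset.sum_le_sum h).trans ?_
  rw [Finset.sum_const, Finset.card_univ, Fintype.card_fun, Fintype.card_bool, Fintype.card_fin,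
    smul_eq_mul, ← mul_pow]
  norm_num

theorem l1_one_add_T_pow_mul_le (ht : 0 < t) (V : ℤ[T;T⁻¹]) (hV : D.IsJones V) :
    l1 ((1 + T 1) ^ t * V) ≤ 16 ^ t := by
  obtain ⟨w, hw⟩ := hV
  rw [← l1_toA, map_mul, map_pow, map_add, map_one, hw]
  have h1 : toA (T 1) = T (-4) := by
    unfold toA T
    rw [AddMonoidAlgebra.mapDomainRingHom_apply, AddMonoidAlgebra.mapDomain_single]
    rfl
  have h2 : (1 + T (-4) : ℤ[T;T⁻¹]) = -T (-2) * delta := by
    unfold delta
    rw [mul_sub, neg_mul, neg_mul, mul_neg, ← T_add, ← T_add]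
    norm_num
  rw [h1, h2]
  have e : (-T (-2) * delta) ^ t * (C (Int.negOnePow w : ℤ) * T (-3 * w) * D.bracket)
      = ((-T (-2)) ^ t * (C (Int.negOnePow w : ℤ) * T (-3 * w))) * (delta ^ t * D.bracket) := by
    rw [mul_pow]; ring
  rw [e]
  refine (l1_mul_le _ _).trans ?_
  have h3 : l1 ((-T (-2)) ^ t * (C (Int.negOnePow w : ℤ) * T (-3 * w))) ≤ 1 := by
    refine (l1_mul_le _ _).trans ?_
    have h4 : l1 ((-T (-2) : ℤ[T;T⁻¹]) ^ t) ≤ 1 := by
      refine (l1_pow_le _ _).trans ?_
      rw [l1_neg, l1_T, one_pow]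
    have h5 : l1 (C (Int.negOnePow w : ℤ) * T (-3 * w)) = 1 := by
      rw [l1_C_mul_T]
      exact Int.units_natAbs _
    rw [h5, mul_one]
    exact h4
  calc _ ≤ 1 * 16 ^ t := Nat.mul_le_mul h3 (D.l1_delta_pow_mul_bracket ht)
    _ = 16 ^ t := one_mul _

/-- The determinant is at most `16^t * choose (t + span) t`. -/
theorem det_le (ht : 0 < t) (V : ℤ[T;T⁻¹]) (hV : D.IsJones V) :
    (atNegOne V).natAbs ≤ 16 ^ t * (t + span V).choose t := by
  obtain ⟨k, rfl⟩ : ∃ k, t = k + 1 := ⟨t - 1, by omega⟩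
  exact (atNegOne_le V k).trans (Nat.mul_le_mul_right _ (D.l1_one_add_T_pow_mul_le ht V hV))

end TwistDiagram

end MP_fc1011_gt
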