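import Pool.Agent.Lib.MP_fc1011_gt.Basic

/-!
# Counting the loops of a state by two-colourings
-/

namespace MP_fc1011_gt

open scoped BigOperators

/-- the colours of the upper and of the lower strand -/
abbrev P := Bool → Bool

/-- compatibility of colours on both sides of a smoothed crossing -/
def step (b : Bool) (p q : P) : Prop :=
  if b = true then p = q else (p true = p false ∧ q true = q false)

instance (b : Bool) (p q : P) : Decidable (step b p q) := by
  unfold step; infer_instance

/-- number of vertical smoothings -/
def vcount {m : ℕ} (σ : Fin m → Bool) : ℕ := (Finset.univ.filter fun k => σ k = false).card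

/-- number of colourings of a region with prescribed colours at the ends -/
def cnt {m : ℕ} (σ : Fin m → Bool) (p q : P) : ℕ :=
  ∑ y : Fin (m + 1) → P, if (y 0 = p ∧ y (Fin.last m) = q ∧
    ∀ k, step (σ k) (y k.castSucc) (y k.succ)) then 1 else 0

theorem cnt_zero (σ : Fin 0 → Bool) (p q : P) : cnt σ p q = if p = q then 1 else 0 := by
  unfold cnt
  rw [← (Equiv.funUnique (Fin 1) P).symm.sum_comp]
  have h : ∀ a : P, (if ((Equiv.funUnique (Fin 1) P).symm a 0 = p ∧
      (Equiv.funUnique (Fin 1) P).symm a (Fin.last 0) = q ∧
      ∀ k : Fin 0, step (σ k) ((Equiv.funUnique (Fin 1) P).symm a k.castSucc)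
        ((Equiv.funUnique (Fin 1) P).symm a k.succ)) then 1 else 0)
      = if a = p then (if p = q then 1 else 0) else 0 := by
    intro a
    have h1 : (Equiv.funUnique (Fin 1) P).symm a 0 = a := rfl
    have h2 : (Equiv.funUnique (Fin 1) P).symm a (Fin.last 0) = a := rfl
    rw [h1, h2]
    by_cases ha : a = p
    · subst ha
      by_cases hq : a = q
      · subst hq
        simp only [true_and, if_true]
        rw [if_pos (fun k => k.elim0)]
      · simp [hq]
    · simp [ha]
  rw [Finset.sum_congr rfl (fun a _ => h a)]
  simp

theorem cnt_succ {m : ℕ} (σ : Fin (m + 1) → Bool) (p q : P) :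
    cnt σ p q = ∑ p' : P, (if step (σ 0) p p' then 1 else 0) *
      cnt (fun k : Fin m => σ k.succ) p' q := by
  unfold cnt
  rw [← (Fin.consEquiv (fun _ : Fin (m + 2) => P)).sum_comp, Fintype.sum_prod_type]
  have h : ∀ (a : P) (z : Fin (m + 1) → P),
      (if ((Fin.consEquiv (fun _ : Fin (m + 2) => P)) (a, z) 0 = p ∧
        (Fin.consEquiv (fun _ : Fin (m + 2) => P)) (a, z) (Fin.last (m + 1)) = q ∧
        ∀ k, step (σ k) ((Fin.consEquiv (fun _ : Fin (m + 2) => P)) (a, z) k.castSucc)
          ((Fin.consEquiv (fun _ : Fin (m + 2) => P)) (a, z) k.succ)) then 1 else 0)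
      = if a = p then (if step (σ 0) p (z 0) then 1 else 0) *
          (if (z (Fin.last m) = q ∧ ∀ k : Fin m, step (σ k.succ) (z k.castSucc) (z k.succ))
            then 1 else 0) else 0 := by
    intro a z
    have h1 : (Fin.consEquiv (fun _ : Fin (m + 2) => P)) (a, z) 0 = a := rfl
    have h2 : ∀ i : Fin (m + 1), (Fin.consEquiv (fun _ : Fin (m + 2) => P)) (a, z) i.succ = z i :=
      fun i => rfl
    have h3 : (Fin.consEquiv (fun _ : Fin (m + 2) => P)) (a, z) (Fin.last (m + 1))
        = z (Fin.last m) := by
      rw [← Fin.succ_last]; exact h2 _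
    have h4 : (Fin.consEquiv (fun _ : Fin (m + 2) => P)) (a, z) (Fin.castSucc 0) = a := rfl
    have h5 : ∀ k : Fin m, (Fin.consEquiv (fun _ : Fin (m + 2) => P)) (a, z)
        (Fin.castSucc k.succ) = z k.castSucc := by
      intro k
      rw [← Fin.succ_castSucc]; exact h2 _
    simp only [h1, h3, Fin.forall_fin_succ, h2, h4, h5]
    by_cases ha : a = p
    · subst ha
      by_cases hs : step (σ 0) a (z 0)
      · simp [hs]
      · simp [hs]
    · simp [ha]
  simp_rw [h]
  have h' : ∀ z : Fin (m + 1) → P, (if step (σ 0) p (z 0) then 1 else 0) *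
          (if (z (Fin.last m) = q ∧ ∀ k : Fin m, step (σ k.succ) (z k.castSucc) (z k.succ))
            then 1 else 0)
      = ∑ p' : P, (if step (σ 0) p p' then 1 else 0) *
        (if (z 0 = p' ∧ z (Fin.last m) = q ∧
          ∀ k : Fin m, step (σ k.succ) (z k.castSucc) (z k.succ)) then 1 else 0) := by
    intro z
    rw [Finset.sum_eq_single (z 0)]
    · simp
    · intro b _ hb
      simp [Ne.symm hb]
    · intro h; exact absurd (Finset.mem_univ _) h
  have h'' : ∀ (a : P), (∑ z : Fin (m + 1) → P, (if a = p then
      (if step (σ 0) p (z 0) then 1 else 0) *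
          (if (z (Fin.last m) = q ∧ ∀ k : Fin m, step (σ k.succ) (z k.castSucc) (z k.succ))
            then 1 else 0) else 0)) = if a = p then
      (∑ z : Fin (m + 1) → P, (if step (σ 0) p (z 0) then 1 else 0) *
          (if (z (Fin.last m) = q ∧ ∀ k : Fin m, step (σ k.succ) (z k.castSucc) (z k.succ))
            then 1 else 0)) else 0 := by
    intro a
    by_cases ha : a = p <;> simp [ha]
  rw [Finset.sum_congr rfl (fun a _ => h'' a)]
  rw [Finset.sum_ite_eq' Finset.univ p]
  simp only [Finset.mem_univ, if_true]
  rw [Finset.sum_congr rfl (fun z _ => h' z), Finset.sum_comm]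
  refine Finset.sum_congr rfl (fun p' _ => ?_)
  rw [Finset.mul_sum]

/-- the closed formula for the number of colourings of a region -/
theorem cnt_eq {m : ℕ} (σ : Fin m → Bool) (p q : P) :
    cnt σ p q = if vcount σ = 0 then (if p = q then 1 else 0)
      else 2 ^ (vcount σ - 1) * (if (p true = p false ∧ q true = q false) then 1 else 0) := by
  induction m generalizing p with
  | zero =>
    rw [cnt_zero]
    have : vcount σ = 0 := by simp [vcount]
    simp [this]
  | succ m ih =>
    rw [cnt_succ]
    simp_rw [ih]
    have hv : vcount σ = (if σ 0 = false then 1 else 0) + vcount (fun k : Fin m => σ k.succ) := by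
      unfold vcount
      rw [Fin.univ_succ, Finset.filter_cons]
      split_ifs with h0
      · rw [Finset.card_cons, Finset.filter_map, Finset.card_map, add_comm]
        rfl
      · rw [Finset.filter_map, Finset.card_map, zero_add]
        rfl
    rw [hv]
    set j := vcount (fun k : Fin m => σ k.succ) with hj
    cases h0 : σ 0
    · simp only [step, if_true, Bool.false_eq_true, if_false]
      by_cases hj0 : j = 0
      · simp only [hj0, if_true]
        have : (1 + 0 : ℕ) ≠ 0 := by norm_num
        simp only [this, if_false]
        rw [Finset.sum_eq_single q]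
        · simp
        · intro b _ hb
          simp [hb]
        · intro h; exact absurd (Finset.mem_univ _) h
      · have h1 : 1 + j ≠ 0 := by omega
        simp only [hj0, h1, if_false]
        have h2 : 1 + j - 1 = (j - 1) + 1 := by omega
        rw [h2]
        have h3 : ∀ p' : P, (if (p true = p false ∧ p' true = p' false) then 1 else 0) *
            (2 ^ (j - 1) * if (p' true = p' false ∧ q true = q false) then 1 else 0)
            = (2 ^ (j - 1) * (if (p true = p false ∧ q true = q false) then 1 else 0)) *
              (if p' true = p' false then 1 else 0) := by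
          intro p'
          by_cases a : p true = p false <;> by_cases b : p' true = p' false <;>
            by_cases c : q true = q false <;> simp [a, b, c]
        rw [Finset.sum_congr rfl (fun p' _ => h3 p'), ← Finset.mul_sum]
        have h4 : ∑ p' : P, (if p' true = p' false then 1 else 0) = 2 := by decide
        rw [h4, pow_succ]
        ring
    · simp only [step, if_true, Bool.true_eq_false, if_false, zero_add]
      rw [Finset.sum_eq_single p]
      · simp
      · intro b _ hb
        simp [Ne.symm hb]
      · intro h; exact absurd (Finset.mem_univ _) h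

theorem sum_diag0 : (∑ p : P, if p true = p false then 1 else 0 : ℕ) = 2 := by decide

theorem sum_diag (inst : ∀ p : P, Decidable (p true = p false)) :
    (∑ p : P, @ite ℕ (p true = p false) (inst p) 1 0) = 2 := by
  rw [← sum_diag0]
  refine Finset.sum_congr rfl (fun p _ => ?_)
  congr

theorem vcount_const {m : ℕ} (hm : m = 1) (b : Bool) :
    vcount (fun _ : Fin m => b) = if b = false then 1 else 0 := by
  subst hm
  cases b <;> decide

end MP_fc1011_gt
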