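import Pool.Agent.Lib.MP_fc1011_gt.Count

/-!
# The number of loops of a state
-/

namespace MP_fc1011_gt

open scoped BigOperators Classical

namespace TwistDiagram

variable {t : ℕ} (D : TwistDiagram t)

/-- colourings of all pieces of strands, sorted by regions -/
abbrev Col := ∀ r : Fin t, Fin ((D.n r).natAbs + 1) → P

/-- colours at the ends of the regions -/
abbrev Bd (t : ℕ) := Fin t → P × P

/-- colour of an end -/
def endCol (g : Bd t) (e : Fin t × (Bool × Bool)) : Bool :=
  (if e.2.1 = true then (g e.1).2 else (g e.1).1) e.2.2

/-- compatibility with the outer arcs -/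
def OuterOK (g : Bd t) : Prop := ∀ e, endCol g e = endCol g (D.arc e)

/-- colours at the ends -/
def bd (x : D.Col) : Bd t := fun r => (x r 0, x r (Fin.last _))

theorem endCol_bd (x : D.Col) (e : Fin t × (Bool × Bool)) :
    endCol (D.bd x) e = x (D.endStrand e).1 (D.endStrand e).2.1 (D.endStrand e).2.2 := by
  unfold endCol bd endStrand
  cases h : e.2.1 <;> simp

/-- the valid colourings -/
def ColOK (s : D.State) (x : D.Col) : Prop :=
  D.OuterOK (D.bd x) ∧ ∀ r k, step (s r k) (x r k.castSucc) (x r k.succ)

/-- functions on the set of loops are the valid colourings -/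
noncomputable def loopsEquiv (s : D.State) :
    (Quot (D.Joined s) → Bool) ≃ {x : D.Col // D.ColOK s x} where
  toFun F := ⟨fun r k b => F (Quot.mk _ ⟨r, k, b⟩), by
    constructor
    · intro e
      rw [endCol_bd, endCol_bd]
      exact congrArg F (Quot.sound (Joined.outer e))
    · intro r k
      unfold step
      split_ifs with h
      · funext b
        exact congrArg F (Quot.sound (Joined.horizontal r k b h))
      · have h' : s r k = false := by simpa using h
        exact ⟨congrArg F (Quot.sound (Joined.left r k h')),
          congrArg F (Quot.sound (Joined.right r k h'))⟩⟩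
  invFun x := Quot.lift (fun z => x.1 z.1 z.2.1 z.2.2) (by
    intro a b hab
    obtain ⟨x, hx1, hx2⟩ := x
    cases hab with
    | outer e =>
      have := hx1 e
      rw [endCol_bd, endCol_bd] at this
      exact this
    | horizontal r k b h =>
      have := hx2 r k
      unfold step at this
      rw [if_pos h] at this
      exact congrFun this b
    | left r k h =>
      have := hx2 r k
      unfold step at this
      rw [if_neg (by simp [h])] at this
      exact this.1
    | right r k h =>
      have := hx2 r k
      unfold step at this
      rw [if_neg (by simp [h])] at this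
      exact this.2)
  left_inv F := by
    funext q
    induction q using Quot.ind
    rfl
  right_inv x := rfl

theorem two_pow_loops (s : D.State) :
    2 ^ D.loops s = ∑ x : D.Col, if D.ColOK s x then 1 else 0 := by
  have h1 : Nat.card (Quot (D.Joined s) → Bool) = 2 ^ D.loops s := by
    rw [Nat.card_fun]
    simp [loops]
  rw [← h1, Nat.card_congr (D.loopsEquiv s), Nat.card_eq_fintype_card, Fintype.card_subtype,
    Finset.card_filter]

theorem sum_col (s : D.State) :
    (∑ x : D.Col, if D.ColOK s x then 1 else 0) =
      ∑ g : Bd t, (if D.OuterOK g then 1 else 0) * ∏ r, cnt (s r) (g r).1 (g r).2 := by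
  have h1 : ∀ g : Bd t, (∏ r, cnt (s r) (g r).1 (g r).2) =
      ∑ x : D.Col, if (g = D.bd x ∧ ∀ r k, step (s r k) (x r k.castSucc) (x r k.succ))
        then 1 else 0 := by
    intro g
    unfold cnt
    rw [Finset.prod_univ_sum, Fintype.piFinset_univ]
    refine Finset.sum_congr rfl (fun x _ => ?_)
    rw [Fintype.prod_ite_zero]
    simp only [Finset.prod_const_one]
    refine if_congr ?_ rfl rfl
    constructor
    · intro h
      refine ⟨?_, fun r k => (h r).2.2 k⟩
      funext r
      exact Prod.ext (h r).1.symm (h r).2.1.symm
    · rintro ⟨h, h'⟩ r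
      subst h
      exact ⟨rfl, rfl, h' r⟩
  simp_rw [h1, Finset.mul_sum]
  rw [Finset.sum_comm]
  refine Finset.sum_congr rfl (fun x _ => ?_)
  rw [Finset.sum_eq_single (D.bd x)]
  · unfold ColOK
    by_cases ha : D.OuterOK (D.bd x) <;>
      by_cases hb : ∀ r k, step (s r k) (x r k.castSucc) (x r k.succ) <;> simp [ha, hb]
  · intro g _ hg
    simp [hg]
  · intro h; exact absurd (Finset.mem_univ _) h

theorem two_pow_loops' (s : D.State) :
    2 ^ D.loops s =
      ∑ g : Bd t, (if D.OuterOK g then 1 else 0) * ∏ r, cnt (s r) (g r).1 (g r).2 :=
  (D.two_pow_loops s).trans (D.sum_col s)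

/-- the diagram with one crossing in each region -/
def base : TwistDiagram t where
  n := fun _ => 1
  arc := D.arc
  arc_arc := D.arc_arc
  arc_ne := D.arc_ne

theorem outerOK_base (g : Bd t) : D.base.OuterOK g ↔ D.OuterOK g := Iff.rfl

/-- the state of the base diagram -/
def baseState (S : Fin t → Bool) : D.base.State := fun r _ => !(S r)

/-- the number of loops if the regions in `S` are replaced by vertical smoothings and the others
by horizontal ones -/
noncomputable def baseLoops (S : Fin t → Bool) : ℕ := D.base.loops (D.baseState S)

/-- the regions with at least one vertical smoothing -/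
def vert (s : D.State) : Fin t → Bool := fun r => decide (vcount (s r) ≠ 0)

theorem cnt_base (S : Fin t → Bool) (r : Fin t) (p q : P) :
    cnt (D.baseState S r) p q = (if S r = true then
      (if (p true = p false ∧ q true = q false) then 1 else 0) else (if p = q then 1 else 0)) := by
  have hm : (D.base.n r).natAbs = 1 := rfl
  have hv : vcount (D.baseState S r) = if (!(S r)) = false then 1 else 0 :=
    vcount_const hm _
  rw [cnt_eq, hv]
  cases h : S r <;> simp

theorem two_pow_baseLoops (S : Fin t → Bool) :
    2 ^ D.baseLoops S = ∑ g : Bd t, (if D.OuterOK g then 1 else 0) * ∏ r,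
      (if S r = true then (if ((g r).1 true = (g r).1 false ∧ (g r).2 true = (g r).2 false)
        then 1 else 0) else (if (g r).1 = (g r).2 then 1 else 0)) := by
  have h := D.base.two_pow_loops' (D.baseState S)
  unfold baseLoops
  rw [h]
  refine Finset.sum_congr rfl (fun g _ => ?_)
  have h1 : (∏ r, cnt (D.baseState S r) (g r).1 (g r).2) = ∏ r, (if S r = true then (if
        ((g r).1 true = (g r).1 false ∧ (g r).2 true = (g r).2 false)
        then 1 else 0) else (if (g r).1 = (g r).2 then 1 else 0)) := by
    refine Finset.prod_congr rfl (fun r _ => ?_)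
    exact D.cnt_base S r (g r).1 (g r).2
  rw [h1]
  by_cases hg : D.OuterOK g
  · rw [if_pos hg, if_pos ((D.outerOK_base g).mpr hg)]
  · rw [if_neg hg, if_neg (fun h => hg ((D.outerOK_base g).mp h))]

theorem loops_eq (ht : 0 < t) (s : D.State) :
    D.loops s = D.baseLoops (D.vert s) + ∑ r, (vcount (s r) - 1) := by
  have h : 2 ^ D.loops s = 2 ^ (D.baseLoops (D.vert s) + ∑ r, (vcount (s r) - 1)) := by
    rw [pow_add, two_pow_baseLoops, two_pow_loops', ← Finset.prod_pow_eq_pow_sum,
      Finset.sum_mul]
    refine Finset.sum_congr rfl (fun g _ => ?_)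
    rw [mul_assoc, ← Finset.prod_mul_distrib]
    congr 1
    refine Finset.prod_congr rfl (fun r _ => ?_)
    rw [cnt_eq]
    unfold vert
    by_cases hv : vcount (s r) = 0
    · simp [hv]
    · simp only [hv, if_false, ne_eq, not_false_eq_true, decide_true, if_true]
      ring
  exact Nat.pow_right_injective (le_refl 2) h

theorem baseLoops_le (S : Fin t → Bool) : D.baseLoops S ≤ 2 * t := by
  have h : 2 ^ D.baseLoops S ≤ 2 ^ (2 * t) := by
    rw [two_pow_baseLoops]
    calc _ ≤ ∑ g : Bd t, ∏ r,
      (if S r = true then (if ((g r).1 true = (g r).1 false ∧ (g r).2 true = (g r).2 false)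
        then 1 else 0) else (if (g r).1 = (g r).2 then 1 else 0)) := by
          refine Finset.sum_le_sum (fun g _ => ?_)
          split_ifs <;> simp
      _ = ∏ r : Fin t, ∑ p : P × P,
        (if S r = true then (if (p.1 true = p.1 false ∧ p.2 true = p.2 false)
        then 1 else 0) else (if p.1 = p.2 then 1 else 0)) := by
          rw [Finset.prod_univ_sum, Fintype.piFinset_univ]
      _ = ∏ r : Fin t, 4 := by
          refine Finset.prod_congr rfl (fun r _ => ?_)
          cases S r
          · simp only [Bool.false_eq_true, if_false]
            rw [Fintype.sum_prod_type]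
            simp
          · simp only [if_true]
            rw [Fintype.sum_prod_type]
            have : ∀ p q : P, (if (p true = p false ∧ q true = q false) then 1 else 0 : ℕ)
              = (if p true = p false then 1 else 0) * (if q true = q false then 1 else 0) := by
              intro p q
              by_cases a : p true = p false <;> by_cases b : q true = q false <;> simp [a, b]
            simp_rw [this, ← Finset.mul_sum, ← Finset.sum_mul]
            rw [sum_diag]
            norm_num
      _ = 2 ^ (2 * t) := by
          rw [Finset.prod_const, Finset.card_univ, Fintype.card_fin, pow_mul]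
          norm_num
  exact (Nat.pow_le_pow_iff_right (by norm_num)).mp h

theorem baseLoops_pos (ht : 0 < t) (S : Fin t → Bool) : 0 < D.baseLoops S := by
  unfold baseLoops loops
  haveI : Nonempty (Quot (D.base.Joined (D.baseState S))) :=
    ⟨Quot.mk _ ⟨⟨0, ht⟩, 0, true⟩⟩
  exact Nat.card_pos

end TwistDiagram

end MP_fc1011_gt
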