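import Pool.Agent.Lib.MP_fc1011_gt.Bound

/-!
# Dunfield's quotient is at most six times the number of twist regions
-/

namespace MP_fc1011_gt

open LaurentPolynomial

theorem choose_le_pow (t s : ℕ) : (t + s).choose t ≤ (1 + s) ^ t := by
  induction t with
  | zero => simp
  | succ t ih =>
    have h := Nat.add_one_mul_choose_eq (t + s) t
    have h2 : (t + s + 1) * (t + s).choose t ≤ (t + 1) * ((1 + s) * (1 + s) ^ t) := by
      calc (t + s + 1) * (t + s).choose t ≤ ((t + 1) * (1 + s)) * (1 + s) ^ t :=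
            Nat.mul_le_mul (by nlinarith) ih
        _ = (t + 1) * ((1 + s) * (1 + s) ^ t) := by ring
    have e : t + 1 + s = t + s + 1 := by ring
    rw [e, pow_succ', ← Nat.mul_le_mul_left_iff (Nat.succ_pos t)]
    calc (t + 1) * (t + s + 1).choose (t + 1) = (t + s + 1) * (t + s).choose t := by
          rw [h, mul_comm]
      _ ≤ _ := h2

/-- Dunfield's quotient `log |V(-1)| / log (span V)`. -/
noncomputable def quotient (V : ℤ[T;T⁻¹]) : ℝ :=
  Real.log |(atNegOne V : ℝ)| / Real.log (span V)

theorem quotient_le {t : ℕ} (ht : 0 < t) (D : TwistDiagram t) (V : ℤ[T;T⁻¹]) (hV : D.IsJones V)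
    (hs : 2 ≤ span V) : quotient V ≤ 6 * t := by
  unfold quotient
  set s := span V with hsdef
  have hlog : 0 < Real.log s := Real.log_pos (by exact_mod_cast (by omega : 1 < s))
  rw [div_le_iff₀ hlog]
  by_cases h0 : atNegOne V = 0
  · rw [h0]
    simp only [Int.cast_zero, abs_zero, Real.log_zero]
    positivity
  · have h1 := D.det_le ht V hV
    have h2 : (atNegOne V).natAbs ≤ (s ^ 6) ^ t := by
      refine h1.trans ?_
      calc 16 ^ t * (t + span V).choose t ≤ 16 ^ t * (1 + s) ^ t :=
            Nat.mul_le_mul_left _ (choose_le_pow t s)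
        _ = (16 * (1 + s)) ^ t := by rw [mul_pow]
        _ ≤ (s ^ 6) ^ t := by
            refine Nat.pow_le_pow_left ?_ t
            have h16 : 16 ≤ s ^ 4 := by
              calc 16 = 2 ^ 4 := by norm_num
                _ ≤ s ^ 4 := Nat.pow_le_pow_left hs 4
            have h3 : 1 + s ≤ s ^ 2 := by nlinarith
            calc 16 * (1 + s) ≤ s ^ 4 * s ^ 2 := Nat.mul_le_mul h16 h3
              _ = s ^ 6 := by ring
    have h3 : |(atNegOne V : ℝ)| ≤ ((s : ℝ) ^ 6) ^ t := by
      have : ((atNegOne V).natAbs : ℝ) ≤ (((s ^ 6) ^ t : ℕ) : ℝ) := by exact_mod_cast h2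
      rw [Nat.cast_natAbs, Int.cast_abs] at this
      push_cast at this
      exact this
    have h4 : 0 < |(atNegOne V : ℝ)| := abs_pos.mpr (by exact_mod_cast h0)
    calc Real.log |(atNegOne V : ℝ)| ≤ Real.log (((s : ℝ) ^ 6) ^ t) := Real.log_le_log h4 h3
      _ = 6 * t * Real.log s := by
        rw [Real.log_pow, Real.log_pow]
        push_cast
        ring

end MP_fc1011_gt
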